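import Pool.Agent.Lib_helper39.TP.Defs

/-!
Definitions of the final statement for MP_3b4c52_gt.
-/

open Module Metric Set Filter Topology CategoryTheory
open scoped ContDiff Quaternion Manifold Matrix

noncomputable section

namespace Pool.Agent.TP

/-! ### Octonions -/

/-- Octonions: pairs of quaternions with the Cayley–Dickson product
`(a, b) (c, d) = (a c - d̄ b, d a + b c̄)` and conjugation `(a, b)⁻ = (ā, -b)`. -/
def Oct : Type := ℍ[ℝ] × ℍ[ℝ]

namespace Oct

instance : AddCommGroup Oct := (inferInstance : AddCommGroup (ℍ[ℝ] × ℍ[ℝ]))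

instance : Module ℝ Oct := (inferInstance : Module ℝ (ℍ[ℝ] × ℍ[ℝ]))

instance : Mul Oct :=
  ⟨fun x y => (x.1 * y.1 - star y.2 * x.2, y.2 * x.1 + x.2 * star y.1)⟩

instance : One Oct := ⟨((1 : ℍ[ℝ]), (0 : ℍ[ℝ]))⟩

instance : Star Oct := ⟨fun x => (star x.1, -x.2)⟩

theorem mul_def (x y : Oct) :
    x * y = (x.1 * y.1 - star y.2 * x.2, y.2 * x.1 + x.2 * star y.1) := rfl

theorem star_def (x : Oct) : star x = (star x.1, -x.2) := rfl

theorem one_def : (1 : Oct) = ((1 : ℍ[ℝ]), (0 : ℍ[ℝ])) := rfl

theorem add_def (x y : Oct) : x + y = (x.1 + y.1, x.2 + y.2) := rfl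

theorem zero_def : (0 : Oct) = ((0 : ℍ[ℝ]), (0 : ℍ[ℝ])) := rfl

theorem smul_def (c : ℝ) (x : Oct) : c • x = (c • x.1, c • x.2) := rfl

@[ext] theorem ext' {x y : Oct} (h1 : x.1 = y.1) (h2 : x.2 = y.2) : x = y := Prod.ext h1 h2

@[simp] theorem mul_fst (x y : Oct) : (x * y).1 = x.1 * y.1 - star y.2 * x.2 := rfl
@[simp] theorem mul_snd (x y : Oct) : (x * y).2 = y.2 * x.1 + x.2 * star y.1 := rfl
@[simp] theorem star_fst (x : Oct) : (star x).1 = star x.1 := rfl
@[simp] theorem star_snd (x : Oct) : (star x).2 = -x.2 := rfl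
@[simp] theorem one_fst : (1 : Oct).1 = 1 := rfl
@[simp] theorem one_snd : (1 : Oct).2 = 0 := rfl
@[simp] theorem zero_fst : (0 : Oct).1 = 0 := rfl
@[simp] theorem zero_snd : (0 : Oct).2 = 0 := rfl
@[simp] theorem add_fst (x y : Oct) : (x + y).1 = x.1 + y.1 := rfl
@[simp] theorem add_snd (x y : Oct) : (x + y).2 = x.2 + y.2 := rfl
@[simp] theorem smul_fst (c : ℝ) (x : Oct) : (c • x).1 = c • x.1 := rfl
@[simp] theorem smul_snd (c : ℝ) (x : Oct) : (c • x).2 = c • x.2 := rfl

protected theorem left_distrib (x y z : Oct) : x * (y + z) = x * y + x * z := by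
  ext1 <;> simp only [mul_fst, mul_snd, add_fst, add_snd, mul_add, add_mul, star_add] <;> abel

protected theorem right_distrib (x y z : Oct) : (x + y) * z = x * z + y * z := by
  ext1 <;> simp only [mul_fst, mul_snd, add_fst, add_snd, mul_add, add_mul] <;> abel

protected theorem zero_mul' (x : Oct) : 0 * x = 0 := by
  ext1 <;> simp

protected theorem mul_zero' (x : Oct) : x * 0 = 0 := by
  ext1 <;> simp

protected theorem one_mul' (x : Oct) : 1 * x = x := by
  ext1 <;> simp

protected theorem mul_one' (x : Oct) : x * 1 = x := by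
  ext1 <;> simp

instance : NonAssocRing Oct :=
  { (inferInstance : AddCommGroup Oct), (inferInstance : Mul Oct), (inferInstance : One Oct) with
    left_distrib := Oct.left_distrib
    right_distrib := Oct.right_distrib
    zero_mul := Oct.zero_mul'
    mul_zero := Oct.mul_zero'
    one_mul := Oct.one_mul'
    mul_one := Oct.mul_one' }

protected theorem star_star' (x : Oct) : star (star x) = x := by
  ext1 <;> simp

protected theorem star_mul' (x y : Oct) : star (x * y) = star y * star x := by
  ext1 <;> simp [neg_mul, mul_neg]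

protected theorem star_add' (x y : Oct) : star (x + y) = star x + star y := by
  ext1
  · simp
  · simp only [star_snd, add_snd]; abel

instance : StarRing Oct where
  star_involutive := Oct.star_star'
  star_mul := Oct.star_mul'
  star_add := Oct.star_add'

instance : StarModule ℝ Oct where
  star_smul := by
    intro r x
    ext1
    · simp
    · simp

end Oct

/-! ### Hermitian matrices and the standard model -/

variable (K : Type) [NonAssocRing K] [StarRing K] [Module ℝ K] [StarModule ℝ K]

/-- the real vector space of Hermitian `3 × 3` matrices over `K` -/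
def Herm3 : Submodule ℝ (Matrix (Fin 3) (Fin 3) K) where
  carrier := {X | Xᴴ = X}
  add_mem' := by
    intro X Y hX hY
    simp only [Set.mem_ofPred_eq] at hX hY ⊢
    rw [Matrix.conjTranspose_add, hX, hY]
  zero_mem' := by simp
  smul_mem' := by
    intro c X hX
    simp only [Set.mem_ofPred_eq] at hX ⊢
    rw [Matrix.conjTranspose_smul, hX, star_trivial]

/-- the standard model `𝒱(K)`: Hermitian matrices with `X² = X` and trace `1` -/
def stdModel : Set (Herm3 K) :=
  {X | (X : Matrix (Fin 3) (Fin 3) K) * (X : Matrix (Fin 3) (Fin 3) K) = X ∧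
    Matrix.trace (X : Matrix (Fin 3) (Fin 3) K) = 1}

/-- `S ⊆ E` is the image of the standard model `𝒱(K)` under a real projective transformation:
for a linear isomorphism `Λ : ℝ × E → Herm₃(K)` the points of the projective space of `Herm₃(K)`
given by `𝒱(K)` correspond to points of the affine part `E = {[1 : x]}` of the projective space
of `ℝ × E`, and these points are exactly the points of `S`. -/
def IsProjImage {E : Type} [AddCommGroup E] [Module ℝ E] (S : Set E) : Prop :=
  ∃ Λ : (ℝ × E) ≃ₗ[ℝ] Herm3 K,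
    (∀ X ∈ stdModel K, (Λ.symm X).1 ≠ 0) ∧
    ∀ x : E, x ∈ S ↔ ∃ X ∈ stdModel K, ∃ c : ℝ, c ≠ 0 ∧ Λ (1, x) = c • X

/-! ### tight maps -/

/-- `k`-th singular homology with coefficients in `ℤ/2` -/
abbrev HZ2 (k : ℕ) : TopCat.{0} ⥤ ModuleCat.{0} (ZMod 2) :=
  (AlgebraicTopology.singularHomologyFunctor (ModuleCat.{0} (ZMod 2)) k).obj
    (ModuleCat.of (ZMod 2) (ZMod 2))

/-- `β_0 = β_d = β_{2d} = 1` and the other Betti numbers vanish -/
def LikeProjPlane (d : ℕ) (M : Type) [TopologicalSpace M] : Prop :=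
  ∀ k : ℕ, ((k = 0 ∨ k = d ∨ k = 2 * d) → finrank (ZMod 2) ((HZ2 k).obj (TopCat.of M)) = 1) ∧
    (¬ (k = 0 ∨ k = d ∨ k = 2 * d) → Subsingleton ((HZ2 k).obj (TopCat.of M)))

/-- the inclusion of a subset of `M` as a morphism of topological spaces -/
def inclTop {M : Type} [TopologicalSpace M] (A : Set M) : TopCat.of A ⟶ TopCat.of M :=
  TopCat.ofHom ⟨Subtype.val, continuous_subtype_val⟩

/-- `f : M → E` is tight: for every closed half-space `h` of `E` the inclusion `f⁻¹(h) ⊆ M`
induces injections in homology. -/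
def IsTight {M E : Type} [TopologicalSpace M] [NormedAddCommGroup E] [NormedSpace ℝ E]
    (f : M → E) : Prop :=
  ∀ (ξ : E →L[ℝ] ℝ) (c : ℝ), ξ ≠ 0 → ∀ k : ℕ,
    Function.Injective ((HZ2 k).map (inclTop {x : M | ξ (f x) ≤ c}))

/-- `f : M → E` is substantial: the image lies in no affine hyperplane -/
def IsSubstantial {M E : Type} [NormedAddCommGroup E] [NormedSpace ℝ E] (f : M → E) : Prop :=
  ∀ (ξ : E →L[ℝ] ℝ) (c : ℝ), ξ ≠ 0 → ∃ x : M, ξ (f x) ≠ c

/-- `f : M → E` is a smooth embedding of the compact manifold `M` (an injective immersion). -/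
def IsSmoothEmb {n : ℕ} {N : ℕ} {M : Type} [TopologicalSpace M]
    [ChartedSpace (EuclideanSpace ℝ (Fin n)) M] (f : M → EuclideanSpace ℝ (Fin N)) : Prop :=
  ContMDiff (𝓡 n) (𝓡 N) ∞ f ∧ Function.Injective f ∧
    ∀ x : M, Function.Injective (mfderiv (𝓡 n) (𝓡 N) f x)

/-- The statement of Q2 for `(d, K)`: every smooth substantial tight embedding in `E^{3d+2}` of a
closed `2d`-manifold like a projective plane has as image the standard model up to a projective
transformation. -/
def Q2 (d : ℕ) : Prop :=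
  ∀ (M : Type) [TopologicalSpace M] [CompactSpace M] [T2Space M]
    [ChartedSpace (EuclideanSpace ℝ (Fin (2 * d))) M] [IsManifold (𝓡 (2 * d)) ∞ M]
    (f : M → EuclideanSpace ℝ (Fin (3 * d + 2))),
    LikeProjPlane d M → IsSmoothEmb (n := 2 * d) f → IsSubstantial f → IsTight f →
      IsProjImage K (Set.range f)

end Pool.Agent.TP

end
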