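import Mathlib

/-!
# Definitions used in the statement about tight embeddings (MP_3b4c52_gt)
-/

open Module
open scoped ContDiff Quaternion Manifold Matrix

noncomputable section

namespace Pool.Agent.Lib_helper39.TightPlane

/-! ### Octonions -/

/-- Octonions: pairs of quaternions with the Cayley–Dickson product
`(a, b) (c, d) = (a c - d̄ b, d a + b c̄)` and conjugation `(a, b)⁻ = (ā, -b)`. -/
def Octonion : Type := ℍ[ℝ] × ℍ[ℝ]

instance : AddCommGroup Octonion := (inferInstance : AddCommGroup (ℍ[ℝ] × ℍ[ℝ]))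

instance : Module ℝ Octonion := (inferInstance : Module ℝ (ℍ[ℝ] × ℍ[ℝ]))

instance : Mul Octonion :=
  ⟨fun x y => (x.1 * y.1 - star y.2 * x.2, y.2 * x.1 + x.2 * star y.1)⟩

instance : One Octonion := ⟨((1 : ℍ[ℝ]), (0 : ℍ[ℝ]))⟩

instance : Star Octonion := ⟨fun x => (star x.1, -x.2)⟩

/-! ### Hermitian matrices and the standard model -/

section
variable (K : Type) [AddCommGroup K] [Mul K] [One K] [Star K]

/-- the Hermitian `3 × 3` matrices over `K` -/
def Herm : Set (Matrix (Fin 3) (Fin 3) K) := {X | X.conjTranspose = X}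

/-- the standard model `𝒱(K)`: Hermitian matrices with `X² = X` and trace `1` -/
def stdModel : Set (Matrix (Fin 3) (Fin 3) K) := {X | X ∈ Herm K ∧ X * X = X ∧ X.trace = 1}

/-- `S ⊆ E` is the image of the standard model `𝒱(K)` under a real projective transformation:
for a linear isomorphism `Λ` of `ℝ × E` onto `Herm₃(K)`, the points `[v]` of the projective space
of `ℝ × E` such that `Λ v` is a nonzero multiple of a point of `𝒱(K)` lie in the affine part
`E = {[1 : x]}`, and they are exactly the points of `S`. -/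
def IsProjImage [Module ℝ K] {E : Type} [AddCommGroup E] [Module ℝ E] (S : Set E) : Prop :=
  ∃ Λ : (ℝ × E) →ₗ[ℝ] Matrix (Fin 3) (Fin 3) K,
    Function.Injective Λ ∧ Set.range Λ = Herm K ∧
    (∀ v : ℝ × E, Λ v ∈ stdModel K → v.1 ≠ 0) ∧
    ∀ x : E, x ∈ S ↔ ∃ c : ℝ, c ≠ 0 ∧ c • Λ (1, x) ∈ stdModel K

end

/-! ### Homology and tight maps -/

/-- `k`-th singular homology with coefficients in `ℤ/2` -/
def HZ2 (k : ℕ) : CategoryTheory.Functor TopCat.{0} (ModuleCat.{0} (ZMod 2)) :=
  (AlgebraicTopology.singularHomologyFunctor (ModuleCat.{0} (ZMod 2)) k).obj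
    (ModuleCat.of (ZMod 2) (ZMod 2))

/-- `β_0 = β_d = β_{2d} = 1` and the other Betti numbers vanish -/
def LikeProjPlane (d : ℕ) (M : Type) [TopologicalSpace M] : Prop :=
  ∀ k : ℕ, ((k = 0 ∨ k = d ∨ k = 2 * d) → finrank (ZMod 2) ((HZ2 k).obj (TopCat.of M)) = 1) ∧
    (¬ (k = 0 ∨ k = d ∨ k = 2 * d) → Subsingleton ((HZ2 k).obj (TopCat.of M)))

/-- the map `H_k(A; ℤ/2) → H_k(M; ℤ/2)` induced by the inclusion of a subset `A` of `M` -/
def homIncl {M : Type} [TopologicalSpace M] (A : Set M) (k : ℕ) :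
    (HZ2 k).obj (TopCat.of A) →ₗ[ZMod 2] (HZ2 k).obj (TopCat.of M) :=
  ((HZ2 k).map (TopCat.ofHom ⟨Subtype.val, continuous_subtype_val⟩)).hom

/-- `f : M → E` is tight: for every closed half-space `h` of `E` the inclusion `f⁻¹(h) ⊆ M`
induces injections in homology. -/
def IsTight {M E : Type} [TopologicalSpace M] [NormedAddCommGroup E] [NormedSpace ℝ E]
    (f : M → E) : Prop :=
  ∀ (ξ : E →L[ℝ] ℝ) (c : ℝ), ξ ≠ 0 → ∀ k : ℕ,
    Function.Injective (homIncl {x : M | ξ (f x) ≤ c} k)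

/-- `f : M → E` is substantial: the image lies in no affine hyperplane -/
def IsSubstantial {M E : Type} [NormedAddCommGroup E] [NormedSpace ℝ E] (f : M → E) : Prop :=
  ∀ (ξ : E →L[ℝ] ℝ) (c : ℝ), ξ ≠ 0 → ∃ x : M, ξ (f x) ≠ c

/-! ### Manifolds and embeddings -/

section
variable (V : Type) [NormedAddCommGroup V] [NormedSpace ℝ V]

/-- `M`, with its atlas of charts in `V`, is a closed smooth manifold: compact, Hausdorff,
with `C^∞` coordinate changes. -/
def IsClosedManifold (M : Type) [TopologicalSpace M] [ChartedSpace V M] : Prop :=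
  CompactSpace M ∧ T2Space M ∧ IsManifold 𝓘(ℝ, V) ∞ M

/-- `f : M → E` is a smooth embedding of the closed manifold `M`: an injective immersion. -/
def IsSmoothEmb {M E : Type} [TopologicalSpace M] [ChartedSpace V M] [NormedAddCommGroup E]
    [NormedSpace ℝ E] (f : M → E) : Prop :=
  ContMDiff 𝓘(ℝ, V) 𝓘(ℝ, E) ∞ f ∧ Function.Injective f ∧
    ∀ x : M, Function.Injective (mfderiv 𝓘(ℝ, V) 𝓘(ℝ, E) f x)

end

end Pool.Agent.Lib_helper39.TightPlane

end
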