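import Pool.Agent.Lib_helper39.TP.Local
import Pool.Agent.Lib_helper39.TP.Pub

/-! The theorem in terms of the public definitions (MP_3b4c52_gt). -/

open Module
open scoped ContDiff Quaternion Manifold Matrix

noncomputable section

namespace Pool.Agent.Lib_helper39.TightPlane


theorem isProjImage_of {K : Type} [NonAssocRing K] [StarRing K] [Module ℝ K] [StarModule ℝ K]
    {E : Type} [AddCommGroup E] [Module ℝ E] {S : Set E} (h : TP.IsProjImage K S) :
    IsProjImage K S := by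
  obtain ⟨Λ, h1, h2⟩ := h
  refine ⟨(TP.Herm3 K).subtype ∘ₗ (Λ : (ℝ × E) →ₗ[ℝ] TP.Herm3 K), ?_, ?_, ?_, ?_⟩
  · exact (TP.Herm3 K).injective_subtype.comp Λ.injective
  · ext X
    constructor
    · rintro ⟨v, rfl⟩
      exact (Λ v).2
    · intro hX
      exact ⟨Λ.symm ⟨X, hX⟩, by simp⟩
  · intro v hv
    have := h1 (Λ v) ⟨hv.2.1, hv.2.2⟩
    simpa using this
  · intro x
    rw [h2 x]
    constructor
    · rintro ⟨X, hX, c, hc, e⟩
      refine ⟨c⁻¹, inv_ne_zero hc, ?_⟩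
      have e1 : c⁻¹ • ((TP.Herm3 K).subtype ∘ₗ (Λ : (ℝ × E) →ₗ[ℝ] TP.Herm3 K)) (1, x) = X := by
        show c⁻¹ • ((Λ (1, x) : TP.Herm3 K) : Matrix (Fin 3) (Fin 3) K) = X
        rw [e, Submodule.coe_smul, smul_smul, inv_mul_cancel₀ hc, one_smul]
      rw [e1]
      exact ⟨X.2, hX.1, hX.2⟩
    · rintro ⟨c, hc, hX⟩
      refine ⟨c • Λ (1, x), ⟨hX.2.1, hX.2.2⟩, c⁻¹, inv_ne_zero hc, ?_⟩
      rw [smul_smul, inv_mul_cancel₀ hc, one_smul]

theorem final_quaternion (M : Type) [TopologicalSpace M]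
    [ChartedSpace (EuclideanSpace ℝ (Fin 8)) M] (f : M → EuclideanSpace ℝ (Fin 14))
    (hM : IsClosedManifold (EuclideanSpace ℝ (Fin 8)) M) (hl : LikeProjPlane 4 M)
    (hf : IsSmoothEmb (EuclideanSpace ℝ (Fin 8)) f) (hs : IsSubstantial f) (ht : IsTight f) :
    IsProjImage ℍ[ℝ] (Set.range f) := by
  obtain ⟨h1, h2, h3⟩ := hM
  exact isProjImage_of (TP.q2_quaternion' M f hl hf hs ht)

theorem final_octonion (M : Type) [TopologicalSpace M]
    [ChartedSpace (EuclideanSpace ℝ (Fin 16)) M] (f : M → EuclideanSpace ℝ (Fin 26))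
    (hM : IsClosedManifold (EuclideanSpace ℝ (Fin 16)) M) (hl : LikeProjPlane 8 M)
    (hf : IsSmoothEmb (EuclideanSpace ℝ (Fin 16)) f) (hs : IsSubstantial f) (ht : IsTight f) :
    IsProjImage Octonion (Set.range f) := by
  obtain ⟨h1, h2, h3⟩ := hM
  exact isProjImage_of (K := TP.Oct) (TP.q2_octonion' M f hl hf hs ht)

end Pool.Agent.Lib_helper39.TightPlane

end
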