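import Mathlib

/-!
MP_3b4c52_gt (tight embeddings of the quaternionic and Cayley projective planes).
Internal interface of the proof: pointwise data, local data, model cone, tight sets.
Paper proof: team-store `TightPlane_proof.md`.
-/

open Module Metric Set Filter Topology
open scoped ContDiff

namespace Pool.Agent.TP

/-- real `d`-space -/
abbrev Vd (d : ℕ) := EuclideanSpace ℝ (Fin d)

section Local

variable {T Y : Type} [NormedAddCommGroup T] [NormedSpace ℝ T]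
  [NormedAddCommGroup Y] [NormedSpace ℝ Y]

/-- If `q` is negative on `W₁` and positive on `W₂`, of complementary dimensions in a
`2d`-dimensional space, then `dim W₁ ∈ {0, d, 2d}`. -/
def IndexCond (d : ℕ) (q : T → ℝ) : Prop :=
  ∀ W₁ W₂ : Submodule ℝ T, finrank ℝ W₁ + finrank ℝ W₂ = 2 * d →
    (∀ u ∈ W₁, u ≠ 0 → q u < 0) → (∀ u ∈ W₂, u ≠ 0 → 0 < q u) →
    finrank ℝ W₁ = 0 ∨ finrank ℝ W₁ = d ∨ finrank ℝ W₁ = 2 * d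

/-- pointwise data of the second fundamental form `B` -/
structure PtData (d : ℕ) (B : T →L[ℝ] T →L[ℝ] Y) : Prop where
  finT : finrank ℝ T = 2 * d
  finY : finrank ℝ Y = d + 2
  symm : ∀ u v, B u v = B v u
  pos : ∃ η₀ : Y →L[ℝ] ℝ, ∀ u, u ≠ 0 → 0 < η₀ (B u u)
  inj : ∀ η : Y →L[ℝ] ℝ, (∀ u, η (B u u) = 0) → η = 0
  index : ∀ η : Y →L[ℝ] ℝ, IndexCond d (fun u => η (B u u))

/-- null covectors: `ξ ≠ 0`, `ξ ∘ B ≥ 0`, degenerate. -/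
def NullCov (B : T →L[ℝ] T →L[ℝ] Y) (ξ : Y →L[ℝ] ℝ) : Prop :=
  ξ ≠ 0 ∧ (∀ u, 0 ≤ ξ (B u u)) ∧ ∃ u, u ≠ 0 ∧ ξ (B u u) = 0

/-- normal form `B(w,w) = (|a|², |b|², F(a,b))`, `|F(a,b)| = |a||b|`. -/
structure NormalForm (d : ℕ) (B : T →L[ℝ] T →L[ℝ] Y) where
  α : T ≃L[ℝ] Vd d × Vd d
  κ : Y ≃L[ℝ] ℝ × ℝ × Vd d
  F : Vd d →L[ℝ] Vd d →L[ℝ] Vd d
  comp : ∀ a b, ‖F a b‖ = ‖a‖ * ‖b‖
  eq : ∀ w, κ (B w w) = (‖(α w).1‖ ^ 2, ‖(α w).2‖ ^ 2, F (α w).1 (α w).2)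

/-- second derivative -/
noncomputable def D2 (f : T → Y) (z : T) : T →L[ℝ] T →L[ℝ] Y := fderiv ℝ (fderiv ℝ f) z

/-- first order Taylor remainder -/
noncomputable def Phi (f : T → Y) (z z' : T) : Y := f z' - f z - fderiv ℝ f z (z' - z)

/-- local data: `f` is the graph function near a good point. -/
structure LocData (d : ℕ) (f : T → Y) (R : ℝ) : Prop where
  hR : 0 < R
  smooth : ContDiff ℝ ∞ f
  f0 : f 0 = 0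
  df0 : fderiv ℝ f 0 = 0
  pos : ∃ η₀ : Y →L[ℝ] ℝ, ∀ z ∈ ball (0 : T) R, ∀ u, u ≠ 0 → 0 < η₀ (D2 f z u u)
  pt : ∀ z ∈ ball (0 : T) R, PtData d (D2 f z)
  T0 : ∀ z ∈ ball (0 : T) R, ∀ η : Y →L[ℝ] ℝ, (∀ u, 0 ≤ η (D2 f z u u)) →
    ∀ z' ∈ ball (0 : T) R, 0 ≤ η (Phi f z z')

end Local

section Model

/-- `ℝ^d` with a composition product `m` and a conjugation `c`. -/
structure CA (d : ℕ) where
  m : Vd d →L[ℝ] Vd d →L[ℝ] Vd d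
  c : Vd d →L[ℝ] Vd d
  norm_m : ∀ a b, ‖m a b‖ = ‖a‖ * ‖b‖
  norm_c : ∀ a, ‖c a‖ = ‖a‖
  c_c : ∀ a, c (c a) = a
  c_m : ∀ a b, c (m a b) = m (c b) (c a)
  m_left : ∀ a b, m a (m (c a) b) = ‖a‖ ^ 2 • b
  m_left' : ∀ a b, m (c a) (m a b) = ‖a‖ ^ 2 • b
  m_right : ∀ a b, m (m b a) (c a) = ‖a‖ ^ 2 • b
  m_right' : ∀ a b, m (m b (c a)) a = ‖a‖ ^ 2 • b

/-- Every composition `F` is equivalent to `(a,b) ↦ ā b`. -/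
def Hur {d : ℕ} (A : CA d) : Prop :=
  ∀ F : Vd d →L[ℝ] Vd d →L[ℝ] Vd d, (∀ a b, ‖F a b‖ = ‖a‖ * ‖b‖) →
    ∃ g₁ g₂ g₃ : Vd d ≃ₗᵢ[ℝ] Vd d, ∀ a b, g₃ (F a b) = A.m (A.c (g₁ a)) (g₂ b)

/-- coordinates of Hermitian `3 × 3` matrices `[[l,a,b],[ā,r,t],[b̄,t̄,s]]`, as a product:
`((l, r, s), (a, b, t))`. -/
abbrev Model (d : ℕ) := (ℝ × ℝ × ℝ) × (Vd d × Vd d × Vd d)

/-- the cone `X² = tr(X) X`. -/
def CA.cone {d : ℕ} (A : CA d) : Set (Model d) :=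
  {X | ‖X.2.1‖ ^ 2 = X.1.1 * X.1.2.1 ∧ ‖X.2.2.1‖ ^ 2 = X.1.1 * X.1.2.2 ∧
    ‖X.2.2.2‖ ^ 2 = X.1.2.1 * X.1.2.2 ∧
    A.m (A.c X.2.1) X.2.2.1 = X.1.1 • X.2.2.2 ∧
    A.m X.2.1 X.2.2.2 = X.1.2.1 • X.2.2.1 ∧
    A.m X.2.2.1 (A.c X.2.2.2) = X.1.2.2 • X.2.1}

/-- the trace -/
def mtr {d : ℕ} (X : Model d) : ℝ := X.1.1 + X.1.2.1 + X.1.2.2

end Model

section Global

variable {E : Type} [NormedAddCommGroup E] [NormedSpace ℝ E]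

/-- a graph chart of `S` at `p` -/
structure GraphChart (d : ℕ) (S : Set E) (p : E) where
  Θ : (Vd (2 * d) × Vd (d + 2)) ≃L[ℝ] E
  g : Vd (2 * d) → Vd (d + 2)
  R : ℝ
  hR : 0 < R
  smooth : ContDiff ℝ ∞ g
  g0 : g 0 = 0
  dg0 : fderiv ℝ g 0 = 0
  mem : ∀ z ∈ ball (0 : Vd (2 * d)) R, p + Θ (z, g z) ∈ S
  nhds : ∀ r, 0 < r → ∃ δ > 0, ∀ x ∈ S, dist x p < δ →
    ∃ z ∈ ball (0 : Vd (2 * d)) r, x = p + Θ (z, g z)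

/-- The properties of tight substantial submanifolds that are used. -/
structure TightSet (d : ℕ) (S : Set E) : Prop where
  compact : IsCompact S
  conn : IsConnected S
  chart : ∀ p ∈ S, Nonempty (GraphChart d S p)
  subst : ∀ (ξ : E →L[ℝ] ℝ) (c : ℝ), (∀ x ∈ S, ξ x = c) → ξ = 0
  T0 : ∀ p ∈ S, ∀ ξ : E →L[ℝ] ℝ, ∀ k > 0, (∀ᶠ x in 𝓝[S] p, k * ‖x - p‖ ^ 2 ≤ ξ (x - p)) →
    ∀ x ∈ S, 0 ≤ ξ (x - p)
  T1 : ∀ p ∈ S, ∀ G : GraphChart d S p, ∀ η : Vd (d + 2) →L[ℝ] ℝ,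
    IndexCond d (fun u => η (D2 G.g 0 u u))

end Global

end Pool.Agent.TP
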