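import Pool.Agent.Lib_helper39.TP.Main
import Pool.Agent.Lib_helper48.TP.Transfer

/-! Final assembly of MP_3b4c52_gt, given the local theorem. -/

open Module Metric Set Filter Topology CategoryTheory
open scoped ContDiff Quaternion Manifold Matrix

noncomputable section
namespace Pool.Agent.TP

theorem q2_quaternion (hloc : LocalThm 4) : Q2 ℍ[ℝ] 4 := by
  intro M _ _ _ _ _ f hM hf hs ht
  exact tightSet_quaternion hloc (tightSet_of_tight f hM hf hs ht)

theorem q2_octonion (hloc : LocalThm 8) : Q2 Oct 8 := by
  intro M _ _ _ _ _ f hM hf hs ht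
  exact tightSet_octonion hloc (tightSet_of_tight f hM hf hs ht)

end Pool.Agent.TP
end
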