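import Pool.Agent.Lib_helper48.TP.H3

/-! Block H2, part a: from a tight set and a good point to `LocData`. -/

open Module Metric Set Filter Topology
open scoped ContDiff

noncomputable section
namespace Pool.Agent.TP

section Pos
variable {T Y : Type} [NormedAddCommGroup T] [NormedSpace ℝ T] [FiniteDimensional ℝ T]
  [NormedAddCommGroup Y] [NormedSpace ℝ Y]

/-- a positive definite form is bounded below -/
theorem exists_lower (B : T →L[ℝ] T →L[ℝ] Y) (η : Y →L[ℝ] ℝ) (h : ∀ u, u ≠ 0 → 0 < η (B u u)) :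
    ∃ c > 0, ∀ u, 2 * c * ‖u‖ ^ 2 ≤ η (B u u) := by
  by_cases hne : (sphere (0 : T) 1).Nonempty
  · have hc : Continuous (fun u : T => η (B u u)) := by fun_prop
    obtain ⟨u0, hu0, hmin⟩ := (isCompact_sphere (0 : T) 1).exists_isMinOn hne hc.continuousOn
    have hu0n : u0 ≠ 0 := by
      intro h0
      rw [h0] at hu0
      simp at hu0
    have hm := h u0 hu0n
    refine ⟨η (B u0 u0) / 2, by positivity, fun u => ?_⟩
    by_cases hu : u = 0
    · simp [hu]
    · have hn : 0 < ‖u‖ := norm_pos_iff.2 hu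
      have h1 : (‖u‖⁻¹ • u) ∈ sphere (0 : T) 1 := by
        rw [mem_sphere_zero_iff_norm, norm_smul, norm_inv, norm_norm]
        field_simp
      have h2 : η (B u0 u0) ≤ η (B (‖u‖⁻¹ • u) (‖u‖⁻¹ • u)) := hmin h1
      have h3 : η (B (‖u‖⁻¹ • u) (‖u‖⁻¹ • u)) = ‖u‖⁻¹ ^ 2 * η (B u u) := by
        simp only [map_smul, smul_apply, smul_eq_mul]
        ring
      rw [h3] at h2
      have h4 : η (B u u) = ‖u‖ ^ 2 * (‖u‖⁻¹ ^ 2 * η (B u u)) := by field_simp
      rw [h4]
      have h5 : 0 ≤ ‖u‖ ^ 2 := by positivity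
      nlinarith
  · refine ⟨1, one_pos, fun u => ?_⟩
    have hu : u = 0 := by
      by_contra hu
      apply hne
      refine ⟨‖u‖⁻¹ • u, ?_⟩
      have hn : 0 < ‖u‖ := norm_pos_iff.2 hu
      rw [mem_sphere_zero_iff_norm, norm_smul, norm_inv, norm_norm]
      field_simp
    simp [hu]

/-- positive definiteness is an open condition -/
theorem eventually_pos {X : Type} [TopologicalSpace X] (B : X → T →L[ℝ] T →L[ℝ] Y)
    (x0 : X) (hB : ContinuousAt B x0) (η : Y →L[ℝ] ℝ) (h : ∀ u, u ≠ 0 → 0 < η (B x0 u u)) :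
    ∀ᶠ x in 𝓝 x0, ∀ u, u ≠ 0 → 0 < η (B x u u) := by
  have hK := isCompact_sphere (0 : T) 1
  have h1 : ∀ᶠ x in 𝓝 x0, ∀ u ∈ sphere (0 : T) 1, 0 < η (B x u u) := by
    apply hK.eventually_forall_of_forall_eventually
    intro u hu
    have hu0 : u ≠ 0 := by
      intro h0
      rw [h0] at hu
      simp at hu
    have hB1 : ContinuousAt (fun z : X × T => B z.1) (x0, u) :=
      ContinuousAt.comp (f := fun z : X × T => z.1) (x := (x0, u)) hB continuousAt_fst
    have hB2 : ContinuousAt (fun z : X × T => B z.1 z.2) (x0, u) := hB1.clm_apply continuousAt_snd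
    have hB3 : ContinuousAt (fun z : X × T => B z.1 z.2 z.2) (x0, u) :=
      hB2.clm_apply continuousAt_snd
    have hB4 : ContinuousAt (fun z : X × T => η (B z.1 z.2 z.2)) (x0, u) :=
      η.continuous.continuousAt.comp hB3
    exact hB4.eventually (lt_mem_nhds (h u hu0))
  filter_upwards [h1] with x hx u hu
  have hn : 0 < ‖u‖ := norm_pos_iff.2 hu
  have h2 : (‖u‖⁻¹ • u) ∈ sphere (0 : T) 1 := by
    rw [mem_sphere_zero_iff_norm, norm_smul, norm_inv, norm_norm]
    field_simp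
  have h3 := hx _ h2
  have h4 : η (B x (‖u‖⁻¹ • u) (‖u‖⁻¹ • u)) = ‖u‖⁻¹ ^ 2 * η (B x u u) := by
    simp only [map_smul, smul_apply, smul_eq_mul]
    ring
  rw [h4] at h3
  have h5 : 0 < ‖u‖⁻¹ ^ 2 := by positivity
  exact (pos_iff_pos_of_mul_pos h3).1 h5

end Pos

section Chart
variable {E : Type} [NormedAddCommGroup E] [InnerProductSpace ℝ E] [FiniteDimensional ℝ E]
variable {d : ℕ} {S : Set E} {p : E}

/-- the covector of `E` vanishing on the tangent space at `par z` and inducing `η`. -/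
def GraphChart.covec (G : GraphChart d S p) (z : Vd (2 * d)) (η : Vd (d + 2) →L[ℝ] ℝ) :
    E →L[ℝ] ℝ :=
  (η.comp (ContinuousLinearMap.snd ℝ (Vd (2 * d)) (Vd (d + 2))) -
    (η.comp (fderiv ℝ G.g z)).comp (ContinuousLinearMap.fst ℝ (Vd (2 * d)) (Vd (d + 2)))).comp
    (G.Θ.symm : E →L[ℝ] Vd (2 * d) × Vd (d + 2))

theorem GraphChart.par_sub (G : GraphChart d S p) (z z' : Vd (2 * d)) :
    G.par z' - G.par z = G.Θ (z' - z, G.g z' - G.g z) := by
  have h1 : ((z' - z, G.g z' - G.g z) : Vd (2 * d) × Vd (d + 2)) = (z', G.g z') - (z, G.g z) := rfl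
  rw [h1, map_sub]
  unfold GraphChart.par
  abel

theorem GraphChart.covec_par (G : GraphChart d S p) (z z' : Vd (2 * d))
    (η : Vd (d + 2) →L[ℝ] ℝ) : G.covec z η (G.par z' - G.par z) = η (Phi G.g z z') := by
  rw [G.par_sub]
  unfold GraphChart.covec Phi
  simp [map_sub]

theorem GraphChart.covec_ne (G : GraphChart d S p) (z : Vd (2 * d))
    (η : Vd (d + 2) →L[ℝ] ℝ) (h : G.covec z η = 0) : η = 0 := by
  ext y
  have h1 : G.covec z η (G.Θ (0, y)) = 0 := by rw [h]; rfl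
  unfold GraphChart.covec at h1
  simpa using h1

/-- `z ↦ η (Phi g z0 z)` has second derivative `η ∘ D²g`. -/
theorem phi_facts {T Y : Type} [NormedAddCommGroup T] [NormedSpace ℝ T]
    [NormedAddCommGroup Y] [NormedSpace ℝ Y] {g : T → Y} (hg : ContDiff ℝ ∞ g) (z0 : T)
    (η : Y →L[ℝ] ℝ) :
    ContDiff ℝ 2 (fun z => η (Phi g z0 z)) ∧ η (Phi g z0 z0) = 0 ∧
      fderiv ℝ (fun z => η (Phi g z0 z)) z0 = 0 ∧
      ∀ u v, D2 (fun z => η (Phi g z0 z)) z0 u v = η (D2 g z0 u v) := by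
  have hg2 : ContDiff ℝ 2 g := hg.of_le (ENat.LEInfty.out)
  have hP : ContDiff ℝ 2 (fun z => Phi g z0 z) := by
    unfold Phi
    exact (hg2.sub contDiff_const).sub
      ((fderiv ℝ g z0).contDiff.comp (contDiff_id.sub contDiff_const))
  have hfP : fderiv ℝ (fun z => Phi g z0 z) = fun z => fderiv ℝ g z - fderiv ℝ g z0 := by
    funext z
    have h1 : HasFDerivAt g (fderiv ℝ g z) z := (hg2.differentiable (by simp) z).hasFDerivAt
    have h2 : HasFDerivAt (fun z => fderiv ℝ g z0 (z - z0)) (fderiv ℝ g z0) z := by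
      have h3 : HasFDerivAt (fun z : T => z - z0) (ContinuousLinearMap.id ℝ T) z :=
        (hasFDerivAt_id z).sub_const z0
      exact (fderiv ℝ g z0).hasFDerivAt.comp z h3
    exact ((h1.sub_const (g z0)).sub h2).fderiv
  refine ⟨η.contDiff.comp hP, by simp [Phi], ?_, ?_⟩
  · rw [fderiv_lcomp η _ hP, hfP]
    simp
  · intro u v
    rw [D2_lcomp η _ hP]
    congr 1
    unfold D2
    rw [hfP]
    have h1 : HasFDerivAt (fderiv ℝ g) (fderiv ℝ (fderiv ℝ g) z0) z0 := by
      have h1 : ContDiff ℝ 1 (fderiv ℝ g) := hg2.fderiv_right (by norm_num)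
      exact (h1.differentiable (by simp) z0).hasFDerivAt
    rw [(h1.sub_const (fderiv ℝ g z0)).fderiv]

/-- points of `S` near `par z` are `par z'` with `z'` near `z` -/
theorem GraphChart.nhds_par (G : GraphChart d S p) {δ : ℝ}
    (hδ : ∀ x ∈ S, dist x p < δ → ∃ z ∈ ball (0 : Vd (2 * d)) G.R, x = p + G.Θ (z, G.g z))
    {z : Vd (2 * d)} (hz : dist (G.par z) p < δ) {P : Vd (2 * d) → Prop}
    (hP : ∀ᶠ z' in 𝓝 z, P z') :
    ∀ᶠ x in 𝓝[S] (G.par z), ∃ z', z' ∈ ball (0 : Vd (2 * d)) G.R ∧ P z' ∧ x = G.par z' := by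
  have h1 : ∀ᶠ x in 𝓝[S] (G.par z), x ∈ S := eventually_mem_nhdsWithin
  have h2 : ∀ᶠ x in 𝓝[S] (G.par z), dist x p < δ := by
    apply eventually_nhdsWithin_of_eventually_nhds
    exact (isOpen_lt (continuous_id.dist continuous_const) continuous_const).mem_nhds hz
  have hcont : ContinuousAt (fun x : E => (G.Θ.symm (x - p)).1) (G.par z) := by
    fun_prop
  have hval : (G.Θ.symm (G.par z - p)).1 = z := by
    unfold GraphChart.par
    simp
  have h3 : ∀ᶠ x in 𝓝[S] (G.par z), P ((G.Θ.symm (x - p)).1) := by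
    apply eventually_nhdsWithin_of_eventually_nhds
    have h4 := hcont.tendsto
    rw [hval] at h4
    exact h4.eventually hP
  filter_upwards [h1, h2, h3] with x hxS hxd hxP
  obtain ⟨z', hz', hx⟩ := hδ x hxS hxd
  refine ⟨z', hz', ?_, hx⟩
  have h5 : (G.Θ.symm (x - p)).1 = z' := by
    rw [hx]
    simp
  rwa [h5] at hxP

/-- global minimality of positive covectors at `par z` -/
theorem covec_nonneg (hS : TightSet d S) (G : GraphChart d S p) {δ : ℝ}
    (hδ : ∀ x ∈ S, dist x p < δ → ∃ z ∈ ball (0 : Vd (2 * d)) G.R, x = p + G.Θ (z, G.g z))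
    {z : Vd (2 * d)} (hzR : z ∈ ball (0 : Vd (2 * d)) G.R) (hz : dist (G.par z) p < δ)
    (η : Vd (d + 2) →L[ℝ] ℝ)
    (hpos : ∀ u, u ≠ 0 → 0 < η (D2 G.g z u u)) :
    ∀ x ∈ S, 0 ≤ G.covec z η (x - G.par z) := by
  obtain ⟨c, hc, hlow⟩ := exists_lower (D2 G.g z) η hpos
  obtain ⟨f1, f2, f3, f4⟩ := phi_facts G.smooth z η
  have h1 := lower_of_second (fun z' => η (Phi G.g z z')) f1 z c hc f2 f3
    (fun u => by rw [f4]; exact hlow u)
  -- Lipschitz bound for `par`
  obtain ⟨K, hK, hlip⟩ : ∃ K > 0, ∀ᶠ z' in 𝓝 z, ‖G.par z' - G.par z‖ ≤ K * ‖z' - z‖ := by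
    have hd : DifferentiableAt ℝ G.par z := (G.contDiff_par.differentiable (by simp)) z
    have h2 := hd.hasFDerivAt.isBigO_sub
    obtain ⟨K, hK⟩ := h2.bound
    refine ⟨max K 1, by positivity, ?_⟩
    filter_upwards [hK] with z' hz'
    exact hz'.trans (mul_le_mul_of_nonneg_right (le_max_left _ _) (norm_nonneg _))
  have hk : 0 < c / 2 / K ^ 2 := by positivity
  refine hS.T0 (G.par z) (G.mem z hzR) (G.covec z η) (c / 2 / K ^ 2) hk ?_
  have h3 := G.nhds_par hδ hz (h1.and hlip)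
  filter_upwards [h3] with x hx
  obtain ⟨z', -, ⟨h4, h5⟩, rfl⟩ := hx
  rw [G.covec_par]
  refine le_trans ?_ h4
  have h6 : ‖G.par z' - G.par z‖ ^ 2 ≤ K ^ 2 * ‖z' - z‖ ^ 2 := by
    rw [← mul_pow]
    exact pow_le_pow_left₀ (norm_nonneg _) h5 2
  calc c / 2 / K ^ 2 * ‖G.par z' - G.par z‖ ^ 2 ≤ c / 2 / K ^ 2 * (K ^ 2 * ‖z' - z‖ ^ 2) := by
        gcongr
    _ = c / 2 * ‖z' - z‖ ^ 2 := by field_simp

/-- the recentred graph chart -/
def GraphChart.recenter (G : GraphChart d S p) {δ : ℝ}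
    (hδ : ∀ x ∈ S, dist x p < δ → ∃ z ∈ ball (0 : Vd (2 * d)) G.R, x = p + G.Θ (z, G.g z))
    {z : Vd (2 * d)} (hzR : z ∈ ball (0 : Vd (2 * d)) G.R) (hz : dist (G.par z) p < δ) :
    GraphChart d S (G.par z) where
  Θ := (ContinuousLinearEquiv.equivOfInverse
      ((ContinuousLinearMap.fst ℝ (Vd (2 * d)) (Vd (d + 2))).prod
        (ContinuousLinearMap.snd ℝ (Vd (2 * d)) (Vd (d + 2)) +
          (fderiv ℝ G.g z).comp (ContinuousLinearMap.fst ℝ (Vd (2 * d)) (Vd (d + 2)))))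
      ((ContinuousLinearMap.fst ℝ (Vd (2 * d)) (Vd (d + 2))).prod
        (ContinuousLinearMap.snd ℝ (Vd (2 * d)) (Vd (d + 2)) -
          (fderiv ℝ G.g z).comp (ContinuousLinearMap.fst ℝ (Vd (2 * d)) (Vd (d + 2)))))
      (by intro x; ext1 <;> simp) (by intro x; ext1 <;> simp)).trans G.Θ
  g := fun w => Phi G.g z (z + w)
  R := G.R - ‖z‖
  hR := by
    have : ‖z‖ < G.R := by simpa using hzR
    linarith
  smooth := by
    unfold Phi
    exact ((G.smooth.comp (contDiff_const.add contDiff_id)).sub contDiff_const).sub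
      ((fderiv ℝ G.g z).contDiff.comp ((contDiff_const.add contDiff_id).sub contDiff_const))
  g0 := by simp [Phi]
  dg0 := by
    have h1 : HasFDerivAt G.g (fderiv ℝ G.g z) (z + 0) := by
      rw [add_zero]
      exact (G.smooth.differentiable (by simp) z).hasFDerivAt
    have h2 : HasFDerivAt (fun w : Vd (2 * d) => z + w) (ContinuousLinearMap.id ℝ _) 0 :=
      (hasFDerivAt_id _).const_add z
    have h3 := h1.comp 0 h2
    have h4 : HasFDerivAt (fun w : Vd (2 * d) => z + w - z) (ContinuousLinearMap.id ℝ _) 0 :=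
      h2.sub_const z
    have h5 := (fderiv ℝ G.g z).hasFDerivAt.comp (x := (0 : Vd (2 * d))) h4
    have h6 := (h3.sub_const (G.g z)).sub h5
    have h7 := h6.fderiv
    rw [ContinuousLinearMap.comp_id, sub_self] at h7
    exact h7
  mem := by
    intro w hw
    have h1 : z + w ∈ ball (0 : Vd (2 * d)) G.R := by
      rw [mem_ball_zero_iff] at hw ⊢
      have := norm_add_le z w
      linarith
    have h2 := G.mem (z + w) h1
    convert h2 using 1
    show p + G.Θ (z, G.g z) + G.Θ (w, Phi G.g z (z + w) + fderiv ℝ G.g z w) = _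
    rw [add_assoc, ← map_add]
    congr 2
    ext1
    · rfl
    · simp [Phi]
  nhds := by
    intro r hr
    have h1 : ∀ᶠ z' in 𝓝 z, z' ∈ ball z r := ball_mem_nhds z hr
    have h2 := G.nhds_par hδ hz h1
    rw [eventually_nhdsWithin_iff] at h2
    obtain ⟨ε, hε, h3⟩ := Metric.eventually_nhds_iff.1 h2
    refine ⟨ε, hε, fun x hxS hx => ?_⟩
    obtain ⟨z', -, hz'r, hx'⟩ := h3 hx hxS
    refine ⟨z' - z, ?_, ?_⟩
    · rw [mem_ball_zero_iff, ← dist_eq_norm]
      exact hz'r
    · rw [hx']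
      show _ = G.par z + G.Θ (z' - z, Phi G.g z (z + (z' - z)) + fderiv ℝ G.g z (z' - z))
      have h4 : Phi G.g z (z + (z' - z)) + fderiv ℝ G.g z (z' - z) = G.g z' - G.g z := by
        simp [Phi]
      rw [h4, ← G.par_sub]
      abel

theorem GraphChart.recenter_D2 (G : GraphChart d S p) {δ : ℝ}
    (hδ : ∀ x ∈ S, dist x p < δ → ∃ z ∈ ball (0 : Vd (2 * d)) G.R, x = p + G.Θ (z, G.g z))
    {z : Vd (2 * d)} (hzR : z ∈ ball (0 : Vd (2 * d)) G.R) (hz : dist (G.par z) p < δ) :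
    D2 (G.recenter hδ hzR hz).g 0 = D2 G.g z := by
  have h1 : ∀ w, fderiv ℝ (G.recenter hδ hzR hz).g w = fderiv ℝ G.g (z + w) - fderiv ℝ G.g z := by
    intro w
    have h1 : HasFDerivAt G.g (fderiv ℝ G.g (z + w)) (z + w) :=
      (G.smooth.differentiable (by simp) (z + w)).hasFDerivAt
    have h2 : HasFDerivAt (fun w : Vd (2 * d) => z + w) (ContinuousLinearMap.id ℝ _) w :=
      (hasFDerivAt_id _).const_add z
    have h3 := h1.comp w h2
    have h4 : HasFDerivAt (fun w : Vd (2 * d) => z + w - z) (ContinuousLinearMap.id ℝ _) w :=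
      h2.sub_const z
    have h5 := (fderiv ℝ G.g z).hasFDerivAt.comp (x := w) h4
    have h6 := (h3.sub_const (G.g z)).sub h5
    have h7 := h6.fderiv
    rw [ContinuousLinearMap.comp_id, ContinuousLinearMap.comp_id] at h7
    exact h7
  unfold D2
  have h2 : fderiv ℝ (G.recenter hδ hzR hz).g = fun w => fderiv ℝ G.g (z + w) - fderiv ℝ G.g z :=
    funext h1
  rw [h2]
  have h3 : HasFDerivAt (fderiv ℝ G.g) (fderiv ℝ (fderiv ℝ G.g) z) (z + 0) := by
    rw [add_zero]
    have h1 : ContDiff ℝ 1 (fderiv ℝ G.g) :=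
      (G.smooth.of_le (ENat.LEInfty.out) : ContDiff ℝ 2 G.g).fderiv_right (by norm_num)
    exact (h1.differentiable (by simp) z).hasFDerivAt
  have h4 : HasFDerivAt (fun w : Vd (2 * d) => z + w) (ContinuousLinearMap.id ℝ _) 0 :=
    (hasFDerivAt_id _).const_add z
  have h5 := (h3.comp 0 h4).sub_const (fderiv ℝ G.g z)
  rw [ContinuousLinearMap.comp_id] at h5
  exact h5.fderiv

/-- `LocData` at a good point -/
theorem exists_locData (hS : TightSet d S) (hg : Good S p) (G : GraphChart d S p) :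
    ∃ R', 0 < R' ∧ R' ≤ G.R ∧ LocData d G.g R' := by
  obtain ⟨ξ, k, hk, hev⟩ := hg
  obtain ⟨δ, hδ0, hδ⟩ := G.nhds G.R G.hR
  -- the covector at `p`
  set η₀ : Vd (d + 2) →L[ℝ] ℝ := (ξ.comp (G.Θ : Vd (2 * d) × Vd (d + 2) →L[ℝ] E)).comp
    (ContinuousLinearMap.inr ℝ (Vd (2 * d)) (Vd (d + 2))) with hη₀
  set ξT : Vd (2 * d) →L[ℝ] ℝ := (ξ.comp (G.Θ : Vd (2 * d) × Vd (d + 2) →L[ℝ] E)).comp
    (ContinuousLinearMap.inl ℝ (Vd (2 * d)) (Vd (d + 2))) with hξT
  set Hh : Vd (2 * d) → ℝ := fun z => ξ (G.par z - p) with hHh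
  have hHs : ContDiff ℝ 2 Hh := by
    have h1 : ContDiff ℝ 2 G.par := G.contDiff_par.of_le (ENat.LEInfty.out)
    exact ξ.contDiff.comp (h1.sub contDiff_const)
  have hH0 : Hh 0 = 0 := by simp [hHh, G.par_zero]
  -- lower bound of `par`
  set M := ‖(G.Θ.symm : E →L[ℝ] Vd (2 * d) × Vd (d + 2))‖ + 1 with hM
  have hMpos : 0 < M := by positivity
  have hparlow : ∀ z, ‖z‖ ≤ M * ‖G.par z - p‖ := by
    intro z
    have h1 : G.Θ.symm (G.par z - p) = (z, G.g z) := by
      unfold GraphChart.par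
      simp
    calc ‖z‖ ≤ ‖(z, G.g z)‖ := by rw [Prod.norm_mk]; exact le_max_left _ _
      _ = ‖G.Θ.symm (G.par z - p)‖ := by rw [h1]
      _ ≤ ‖(G.Θ.symm : E →L[ℝ] Vd (2 * d) × Vd (d + 2))‖ * ‖G.par z - p‖ :=
          (G.Θ.symm : E →L[ℝ] Vd (2 * d) × Vd (d + 2)).le_opNorm _
      _ ≤ M * ‖G.par z - p‖ := by gcongr; linarith
  have hHlow : ∀ᶠ z in 𝓝 (0 : Vd (2 * d)), (k / M ^ 2) * ‖z - 0‖ ^ 2 ≤ Hh z := by
    filter_upwards [G.par_tendsto.eventually hev] with z hz
    refine le_trans ?_ hz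
    rw [sub_zero]
    have h1 : ‖z‖ ^ 2 ≤ M ^ 2 * ‖G.par z - p‖ ^ 2 := by
      rw [← mul_pow]
      exact pow_le_pow_left₀ (norm_nonneg _) (hparlow z) 2
    calc k / M ^ 2 * ‖z‖ ^ 2 ≤ k / M ^ 2 * (M ^ 2 * ‖G.par z - p‖ ^ 2) := by gcongr
      _ = k * ‖G.par z - p‖ ^ 2 := by field_simp
  have hkM : 0 < k / M ^ 2 := by positivity
  obtain ⟨hH1, hH2⟩ := second_lower Hh hHs 0 (k / M ^ 2) hkM.le hH0 hHlow
  have hHform : ∀ z, Hh z = ξT z + η₀ (G.g z) := by
    intro z
    simp only [hHh, hξT, hη₀, GraphChart.par]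
    simp only [add_sub_cancel_left, ContinuousLinearMap.comp_apply, ContinuousLinearMap.inl_apply,
      ContinuousLinearMap.inr_apply]
    show ξ (G.Θ (z, G.g z)) = ξ (G.Θ (z, 0)) + ξ (G.Θ (0, G.g z))
    rw [← map_add, ← map_add]
    simp
  have hg2 : ContDiff ℝ 2 G.g := G.smooth.of_le (ENat.LEInfty.out)
  have hD2H : ∀ u v, D2 Hh 0 u v = η₀ (D2 G.g 0 u v) := by
    intro u v
    have h1 : Hh = fun z => ξT z + η₀ (G.g z) := funext hHform
    have h2 : fderiv ℝ Hh = fun z => ξT + fderiv ℝ (fun z => η₀ (G.g z)) z := by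
      funext z
      rw [h1]
      have h3 : HasFDerivAt (fun z => η₀ (G.g z)) (fderiv ℝ (fun z => η₀ (G.g z)) z) z := by
        have : ContDiff ℝ 2 (fun z => η₀ (G.g z)) := η₀.contDiff.comp hg2
        exact (this.differentiable (by simp) z).hasFDerivAt
      exact (ξT.hasFDerivAt.add h3).fderiv
    rw [← D2_lcomp η₀ G.g hg2]
    unfold D2
    rw [h2, fderiv_const_add]
  have hpos0 : ∀ u, u ≠ 0 → 0 < η₀ (D2 G.g 0 u u) := by
    intro u hu
    have h1 := hH2 u
    rw [hD2H] at h1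
    have h2 : 0 < ‖u‖ := norm_pos_iff.2 hu
    have h3 : 0 < 2 * (k / M ^ 2) * ‖u‖ ^ 2 := by positivity
    linarith
  -- choose the radius
  have hcD2 : Continuous (D2 G.g) := by
    have h1 : ContDiff ℝ 1 (fderiv ℝ G.g) := hg2.fderiv_right (by norm_num)
    exact h1.continuous_fderiv (by simp)
  have hev1 := eventually_pos (D2 G.g) 0 hcD2.continuousAt η₀ hpos0
  have hev2 : ∀ᶠ z in 𝓝 (0 : Vd (2 * d)), dist (G.par z) p < δ := by
    have h1 := G.contDiff_par.continuous.tendsto 0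
    rw [G.par_zero] at h1
    exact h1.eventually (ball_mem_nhds p hδ0)
  obtain ⟨r1, hr1, hball⟩ := Metric.eventually_nhds_iff_ball.1 (hev1.and hev2)
  refine ⟨min r1 G.R, lt_min hr1 G.hR, min_le_right _ _, ?_⟩
  have hb1 : ∀ z ∈ ball (0 : Vd (2 * d)) (min r1 G.R), ∀ u, u ≠ 0 → 0 < η₀ (D2 G.g z u u) :=
    fun z hz => (hball z (ball_subset_ball (min_le_left _ _) hz)).1
  have hb2 : ∀ z ∈ ball (0 : Vd (2 * d)) (min r1 G.R), dist (G.par z) p < δ :=
    fun z hz => (hball z (ball_subset_ball (min_le_left _ _) hz)).2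
  have hb3 : ∀ z ∈ ball (0 : Vd (2 * d)) (min r1 G.R), z ∈ ball (0 : Vd (2 * d)) G.R :=
    fun z hz => ball_subset_ball (min_le_right _ _) hz
  refine ⟨lt_min hr1 G.hR, G.smooth, G.g0, G.dg0, ⟨η₀, hb1⟩, ?_, ?_⟩
  · intro z hz
    refine ⟨by simp, by simp, ?_, ⟨η₀, hb1 z hz⟩, ?_, ?_⟩
    · intro u v
      have h2 : IsSymmSndFDerivAt ℝ G.g z := (hg2.contDiffAt (x := z)).isSymmSndFDerivAt (by simp)
      exact h2 u v
    · intro η hη
      apply G.covec_ne z
      have hall : ∀ x ∈ S, G.covec z η (x - G.par z) = 0 := by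
        intro x hx
        have key : ∀ t : ℝ, 0 ≤ G.covec z (η₀ + t • η) (x - G.par z) := by
          intro t
          refine covec_nonneg hS G hδ (hb3 z hz) (hb2 z hz) _ ?_ x hx
          intro u hu
          have := hb1 z hz u hu
          simp only [add_apply, smul_apply, smul_eq_mul, hη u, mul_zero, add_zero]
          exact this
        have hlin : ∀ t : ℝ, G.covec z (η₀ + t • η) (x - G.par z) =
            G.covec z η₀ (x - G.par z) + t * G.covec z η (x - G.par z) := by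
          intro t
          unfold GraphChart.covec
          simp only [ContinuousLinearMap.comp_apply, sub_apply, add_apply, smul_apply, smul_eq_mul]
          ring
        by_contra hne
        set a := G.covec z η₀ (x - G.par z) with ha
        set b := G.covec z η (x - G.par z) with hb
        have h1 := key (-(a + 1) / b)
        rw [hlin] at h1
        have h2 : -(a + 1) / b * b = -(a + 1) := by field_simp
        rw [h2] at h1
        linarith
      refine hS.subst (G.covec z η) (G.covec z η (G.par z)) (fun x hx => ?_)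
      have := hall x hx
      rw [map_sub, sub_eq_zero] at this
      exact this
    · intro η
      have h1 := hS.T1 (G.par z) (G.mem z (hb3 z hz)) (G.recenter hδ (hb3 z hz) (hb2 z hz)) η
      rw [G.recenter_D2 hδ (hb3 z hz) (hb2 z hz)] at h1
      exact h1
  · intro z hz η hη z' hz'
    by_contra hneg
    push Not at hneg
    -- perturb by a small positive multiple of `η₀`
    set a := η (Phi G.g z z') with ha
    set b := η₀ (Phi G.g z z') with hb
    have key : ∀ t : ℝ, 0 < t → 0 ≤ a + t * b := by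
      intro t ht
      have h1 := covec_nonneg hS G hδ (hb3 z hz) (hb2 z hz) (η + t • η₀) ?_ (G.par z')
        (G.mem z' (hb3 z' hz'))
      · rw [G.covec_par] at h1
        simpa [ha, hb] using h1
      · intro u hu
        have h2 := hη u
        have h3 := hb1 z hz u hu
        simp only [add_apply, smul_apply, smul_eq_mul]
        positivity
    rcases le_or_gt b 0 with hb0 | hb0
    · have := key 1 one_pos
      nlinarith
    · have h1 := key (-a / (2 * b)) (by apply div_pos <;> linarith)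
      have h2 : -a / (2 * b) * b = -a / 2 := by field_simp
      rw [h2] at h1
      linarith

end Chart

end Pool.Agent.TP
end
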