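import Pool.Agent.Lib_helper39.TP.H2a

/-! Block H2, part b: from the local theorem to the linear coordinates `Λ`. -/

open Module Metric Set Filter Topology
open scoped ContDiff

noncomputable section
namespace Pool.Agent.TP

section Chart
variable {E : Type} [NormedAddCommGroup E] [InnerProductSpace ℝ E] [FiniteDimensional ℝ E]
variable {d : ℕ} {S : Set E} {p : E}

/-- `(x₀, x) ↦ (x₀, x - x₀ p)` -/
def shiftE (p : E) : (ℝ × E) ≃L[ℝ] (ℝ × E) :=
  ContinuousLinearEquiv.equivOfInverse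
    ((ContinuousLinearMap.fst ℝ ℝ E).prod (ContinuousLinearMap.snd ℝ ℝ E -
      (ContinuousLinearMap.fst ℝ ℝ E).smulRight p))
    ((ContinuousLinearMap.fst ℝ ℝ E).prod (ContinuousLinearMap.snd ℝ ℝ E +
      (ContinuousLinearMap.fst ℝ ℝ E).smulRight p))
    (by intro x; ext1 <;> simp) (by intro x; ext1 <;> simp)

theorem shiftE_apply (p : E) (x : ℝ × E) : shiftE p x = (x.1, x.2 - x.1 • p) := rfl

/-- the gauge transformation `(x₀, (w, y)) ↦ (x₀ + l (w, y), (w + S y, y))` -/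
def gaugeE {T Y : Type} [NormedAddCommGroup T] [NormedSpace ℝ T] [NormedAddCommGroup Y]
    [NormedSpace ℝ Y] (L : Y →L[ℝ] T) (l : T × Y →L[ℝ] ℝ) :
    (ℝ × (T × Y)) ≃L[ℝ] (ℝ × (T × Y)) :=
  ContinuousLinearEquiv.equivOfInverse
    ((ContinuousLinearMap.fst ℝ ℝ (T × Y) + l.comp (ContinuousLinearMap.snd ℝ ℝ (T × Y))).prod
      (((ContinuousLinearMap.fst ℝ T Y).comp (ContinuousLinearMap.snd ℝ ℝ (T × Y)) +
        L.comp ((ContinuousLinearMap.snd ℝ T Y).comp (ContinuousLinearMap.snd ℝ ℝ (T × Y)))).prod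
        ((ContinuousLinearMap.snd ℝ T Y).comp (ContinuousLinearMap.snd ℝ ℝ (T × Y)))))
    ((ContinuousLinearMap.fst ℝ ℝ (T × Y) - l.comp
      ((((ContinuousLinearMap.fst ℝ T Y).comp (ContinuousLinearMap.snd ℝ ℝ (T × Y)) -
        L.comp ((ContinuousLinearMap.snd ℝ T Y).comp (ContinuousLinearMap.snd ℝ ℝ (T × Y)))).prod
        ((ContinuousLinearMap.snd ℝ T Y).comp (ContinuousLinearMap.snd ℝ ℝ (T × Y)))))).prod
      (((ContinuousLinearMap.fst ℝ T Y).comp (ContinuousLinearMap.snd ℝ ℝ (T × Y)) -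
        L.comp ((ContinuousLinearMap.snd ℝ T Y).comp (ContinuousLinearMap.snd ℝ ℝ (T × Y)))).prod
        ((ContinuousLinearMap.snd ℝ T Y).comp (ContinuousLinearMap.snd ℝ ℝ (T × Y)))))
    (by
      rintro ⟨x0, w, y⟩
      have h1 : w + L y - L y = w := by abel
      refine Prod.ext ?_ (Prod.ext ?_ rfl)
      · show x0 + l (w, y) - l (w + L y - L y, y) = x0
        rw [h1]; ring
      · show w + L y - L y = w
        exact h1)
    (by
      rintro ⟨x0, w, y⟩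
      have h1 : w - L y + L y = w := by abel
      refine Prod.ext ?_ (Prod.ext ?_ rfl)
      · show x0 - l (w - L y, y) + l (w - L y, y) = x0
        ring
      · show w - L y + L y = w
        exact h1)

theorem gaugeE_apply {T Y : Type} [NormedAddCommGroup T] [NormedSpace ℝ T] [NormedAddCommGroup Y]
    [NormedSpace ℝ Y] (L : Y →L[ℝ] T) (l : T × Y →L[ℝ] ℝ) (x0 : ℝ) (w : T) (y : Y) :
    gaugeE L l (x0, (w, y)) = (x0 + l (w, y), (w + L y, y)) := rfl

/-- rearrangement `(x₀, ((a, b), (r, s, t))) ↦ ((x₀, r, s), (a, b, t))` -/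
def rearr (d : ℕ) : (ℝ × ((Vd d × Vd d) × (ℝ × ℝ × Vd d))) ≃L[ℝ] Model d :=
  LinearEquiv.toContinuousLinearEquiv
    { toFun := fun x => ((x.1, x.2.2.1, x.2.2.2.1), (x.2.1.1, x.2.1.2, x.2.2.2.2))
      invFun := fun X => (X.1.1, ((X.2.1, X.2.2.1), (X.1.2.1, X.1.2.2, X.2.2.2)))
      map_add' := fun _ _ => rfl
      map_smul' := fun _ _ => rfl
      left_inv := fun _ => rfl
      right_inv := fun _ => rfl }

theorem rearr_apply (x : ℝ × ((Vd d × Vd d) × (ℝ × ℝ × Vd d))) :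
    rearr d x = ((x.1, x.2.2.1, x.2.2.2.1), (x.2.1.1, x.2.1.2, x.2.2.2.2)) := rfl

/-- multiplication by a nonzero scalar -/
def scaleE (V : Type) [NormedAddCommGroup V] [NormedSpace ℝ V] (c : ℝ) (hc : c ≠ 0) : V ≃L[ℝ] V :=
  ContinuousLinearEquiv.equivOfInverse (c • ContinuousLinearMap.id ℝ V)
    (c⁻¹ • ContinuousLinearMap.id ℝ V)
    (by intro x; simp [smul_smul, mul_inv_cancel₀ hc])
    (by intro x; simp [smul_smul, inv_mul_cancel₀ hc])

theorem scaleE_apply (V : Type) [NormedAddCommGroup V] [NormedSpace ℝ V] (c : ℝ) (hc : c ≠ 0)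
    (x : V) : scaleE V c hc x = c • x := rfl

/-- (H2), with the local theorem as a hypothesis. -/
theorem near_of_local (A : CA d) (hA : Hur A) (G : GraphChart d S p)
    (nf : NormalForm d (D2 G.g 0)) (L : Vd (d + 2) →L[ℝ] Vd (2 * d))
    (l : Vd (2 * d) × Vd (d + 2) →L[ℝ] ℝ) (r : ℝ) (hr : 0 < r)
    (hloc : ∀ z ∈ ball (0 : Vd (2 * d)) r, (1 + l (z, G.g z)) • G.g z =
        (1 / 2 : ℝ) • D2 G.g 0 (z + L (G.g z)) (z + L (G.g z))) :
    ∃ Λ : (ℝ × E) ≃L[ℝ] Model d, NearIn A S Λ p ∧ Λ (1, p) = ((1, 0, 0), (0, 0, 0)) := by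
  obtain ⟨g₁, g₂, g₃, hg⟩ := hA nf.F nf.comp
  have h2 : Real.sqrt 2 ≠ 0 := by positivity
  have h2' : (Real.sqrt 2)⁻¹ ≠ 0 := inv_ne_zero h2
  have hsq : (Real.sqrt 2)⁻¹ * (Real.sqrt 2)⁻¹ = 1 / 2 := by
    rw [← mul_inv, Real.mul_self_sqrt (by norm_num)]; norm_num
  -- the coordinates of `T` and `Y`
  let αT : Vd (2 * d) ≃L[ℝ] Vd d × Vd d := nf.α.trans
    ((g₁.toContinuousLinearEquiv.trans (scaleE (Vd d) _ h2')).prodCongr
      (g₂.toContinuousLinearEquiv.trans (scaleE (Vd d) _ h2')))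
  let κY : Vd (d + 2) ≃L[ℝ] ℝ × ℝ × Vd d := nf.κ.trans
    ((ContinuousLinearEquiv.refl ℝ ℝ).prodCongr
      ((ContinuousLinearEquiv.refl ℝ ℝ).prodCongr g₃.toContinuousLinearEquiv))
  let Λ : (ℝ × E) ≃L[ℝ] Model d :=
    (shiftE p).trans (((ContinuousLinearEquiv.refl ℝ ℝ).prodCongr G.Θ.symm).trans
      ((gaugeE L l).trans (((ContinuousLinearEquiv.refl ℝ ℝ).prodCongr
        (αT.prodCongr κY)).trans (rearr d))))
  have hΛ : ∀ z, Λ (1, G.par z) = ((1 + l (z, G.g z), (κY (G.g z)).1, (κY (G.g z)).2.1),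
      ((αT (z + L (G.g z))).1, (αT (z + L (G.g z))).2, (κY (G.g z)).2.2)) := by
    intro z
    have h1 : shiftE p (1, G.par z) = (1, G.Θ (z, G.g z)) := by
      rw [shiftE_apply]
      refine Prod.ext rfl ?_
      show G.par z - (1 : ℝ) • p = _
      rw [one_smul]
      unfold GraphChart.par
      abel
    show rearr d (((ContinuousLinearEquiv.refl ℝ ℝ).prodCongr (αT.prodCongr κY))
      (gaugeE L l (((ContinuousLinearEquiv.refl ℝ ℝ).prodCongr G.Θ.symm)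
        (shiftE p (1, G.par z))))) = _
    rw [h1]
    have h3 : ((ContinuousLinearEquiv.refl ℝ ℝ).prodCongr G.Θ.symm) (1, G.Θ (z, G.g z))
        = (1, (z, G.g z)) := by
      refine Prod.ext rfl ?_
      show G.Θ.symm (G.Θ (z, G.g z)) = _
      simp
    rw [h3, gaugeE_apply, rearr_apply]
    rfl
  refine ⟨Λ, ?_, ?_⟩
  · unfold NearIn
    have hcont : ContinuousAt (fun z => 1 + l (z, G.g z)) (0 : Vd (2 * d)) := by
      have : Continuous (fun z => 1 + l (z, G.g z)) := by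
        have hgc := G.smooth.continuous
        fun_prop
      exact this.continuousAt
    have hval : 1 + l ((0 : Vd (2 * d)), G.g 0) = 1 := by
      rw [G.g0]
      have : ((0 : Vd (2 * d)), (0 : Vd (d + 2))) = 0 := rfl
      rw [this, map_zero, add_zero]
    have hne : ∀ᶠ z in 𝓝 (0 : Vd (2 * d)), 1 + l (z, G.g z) ≠ 0 := by
      apply hcont.eventually_ne
      rw [hval]
      exact one_ne_zero
    have hall := hne.and (ball_mem_nhds (0 : Vd (2 * d)) hr)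
    obtain ⟨r', hr', hball⟩ := Metric.eventually_nhds_iff_ball.1 hall
    obtain ⟨δ, hδ, hδ'⟩ := G.nhds r' hr'
    have h1 : ∀ᶠ x in 𝓝[S] p, x ∈ S := eventually_mem_nhdsWithin
    have h2 : ∀ᶠ x in 𝓝[S] p, dist x p < δ := by
      apply eventually_nhdsWithin_of_eventually_nhds
      exact ball_mem_nhds p hδ
    filter_upwards [h1, h2] with x hxS hxd
    obtain ⟨z, hz, rfl⟩ := hδ' x hxS hxd
    obtain ⟨hz1, hz2⟩ := hball z hz
    have h3 := hloc z hz2
    set w := z + L (G.g z) with hw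
    have h4 : (1 + l (z, G.g z)) • nf.κ (G.g z) = (1 / 2 : ℝ) •
        ((‖(nf.α w).1‖ ^ 2, ‖(nf.α w).2‖ ^ 2, nf.F (nf.α w).1 (nf.α w).2) : ℝ × ℝ × Vd d) := by
      rw [← nf.eq, ← map_smul, ← map_smul, h3]
    have h5 : Λ (1, p + G.Θ (z, G.g z)) = Λ (1, G.par z) := rfl
    rw [h5, hΛ]
    set lam := 1 + l (z, G.g z) with hlam
    obtain ⟨e1, e2⟩ := Prod.ext_iff.1 h4
    obtain ⟨e2, e3⟩ := Prod.ext_iff.1 e2
    have k1 : lam * (nf.κ (G.g z)).1 = 1 / 2 * ‖(nf.α w).1‖ ^ 2 := e1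
    have k2 : lam * (nf.κ (G.g z)).2.1 = 1 / 2 * ‖(nf.α w).2‖ ^ 2 := e2
    have k3 : lam • (nf.κ (G.g z)).2.2 = (1 / 2 : ℝ) • nf.F (nf.α w).1 (nf.α w).2 := e3
    have a1 : (αT w).1 = (Real.sqrt 2)⁻¹ • g₁ (nf.α w).1 := rfl
    have a2 : (αT w).2 = (Real.sqrt 2)⁻¹ • g₂ (nf.α w).2 := rfl
    have b1 : (κY (G.g z)).1 = (nf.κ (G.g z)).1 := rfl
    have b2 : (κY (G.g z)).2.1 = (nf.κ (G.g z)).2.1 := rfl
    have b3 : (κY (G.g z)).2.2 = g₃ (nf.κ (G.g z)).2.2 := rfl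
    refine h_mem_cone_of_l A hz1 ?_ ?_ ?_
    · rw [a1, b1, norm_smul, mul_pow, LinearIsometryEquiv.norm_map, k1, norm_inv,
        Real.norm_of_nonneg (Real.sqrt_nonneg 2), inv_pow, Real.sq_sqrt (by norm_num)]
      norm_num
    · rw [a2, b2, norm_smul, mul_pow, LinearIsometryEquiv.norm_map, k2, norm_inv,
        Real.norm_of_nonneg (Real.sqrt_nonneg 2), inv_pow, Real.sq_sqrt (by norm_num)]
      norm_num
    · rw [a1, a2, b3]
      simp only [map_smul, smul_apply]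
      have h6 : g₃ ((1 / 2 : ℝ) • nf.F (nf.α w).1 (nf.α w).2) =
          (1 / 2 : ℝ) • g₃ (nf.F (nf.α w).1 (nf.α w).2) := g₃.map_smul _ _
      rw [← hg, smul_smul, hsq, ← h6, ← k3]
      exact g₃.map_smul _ _
  · have h3 := hΛ 0
    rw [G.par_zero] at h3
    rw [h3, G.g0]
    have h0 : ((0 : Vd (2 * d)), (0 : Vd (d + 2))) = 0 := rfl
    rw [h0]
    simp only [map_zero, add_zero]
    rfl

end Chart

end Pool.Agent.TP
end
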