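import Pool.Agent.Lib_helper39.TP.Final
import Pool.Agent.Lib_helper56.TP_A2
import Pool.Agent.Lib_helper69.KP.L2

/-! The local theorem, and questions Q2 (MP_3b4c52_gt). -/

open Module Metric Set Filter Topology CategoryTheory
open scoped ContDiff Quaternion Manifold Matrix

noncomputable section
namespace Pool.Agent.TP

theorem localThm {d : ℕ} (hd : 2 ≤ d) : LocalThm d := by
  intro f R h
  refine local_theorem_of_norm hd h ?_
  intro B hB
  obtain ⟨ξ, hξ⟩ := exists_nullCov (by omega) hB
  obtain ⟨nf, -⟩ := exists_normalForm (by omega) hB ξ hξ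
  exact ⟨nf⟩

theorem q2_quaternion' : Q2 ℍ[ℝ] 4 := q2_quaternion (localThm (by norm_num))

theorem q2_octonion' : Q2 Oct 8 := q2_octonion (localThm (by norm_num))

end Pool.Agent.TP
end
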