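import Pool.Agent.Lib_helper39.TP.H2b
import Pool.Agent.Lib_helper48.TP.Core
import Pool.Agent.Lib_helper29.TP.HurwitzB

/-! Assembly of MP_3b4c52_gt -/

open Module Metric Set Filter Topology CategoryTheory
open scoped ContDiff Quaternion Manifold Matrix

noncomputable section
namespace Pool.Agent.TP

/-- The statement of the local theorem -/
def LocalThm (d : ℕ) : Prop :=
  ∀ (f : Vd (2 * d) → Vd (d + 2)) (R : ℝ), LocData d f R →
    ∃ (_ : NormalForm d (D2 f 0)) (S : Vd (d + 2) →L[ℝ] Vd (2 * d))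
      (l : Vd (2 * d) × Vd (d + 2) →L[ℝ] ℝ) (r : ℝ), 0 < r ∧
      ∀ z ∈ ball (0 : Vd (2 * d)) r, (1 + l (z, f z)) • f z =
        (1 / 2 : ℝ) • D2 f 0 (z + S (f z)) (z + S (f z))

section
variable {E : Type} [NormedAddCommGroup E] [InnerProductSpace ℝ E] [FiniteDimensional ℝ E]

/-- (H2) -/
theorem near_of_good {d : ℕ} (hloc : LocalThm d) (A : CA d) (hA : Hur A) {S : Set E}
    (hS : TightSet d S) {p : E} (hp : p ∈ S) (hg : Good S p) :
    ∃ Λ : (ℝ × E) ≃L[ℝ] Model d, NearIn A S Λ p ∧ Λ (1, p) = ((1, 0, 0), (0, 0, 0)) := by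
  obtain ⟨G⟩ := hS.chart p hp
  obtain ⟨R', -, -, hL⟩ := exists_locData hS hg G
  obtain ⟨nf, L, l, r, hr, h⟩ := hloc G.g R' hL
  exact near_of_local A hA G nf L l r hr h

/-- the theorem for tight sets, quaternions -/
theorem tightSet_quaternion (hloc : LocalThm 4) {S : Set E} (hS : TightSet 4 S) :
    IsProjImage ℍ[ℝ] S := by
  obtain ⟨A, ι, hm, hc, hn, hA⟩ := exists_CA_quaternion
  exact isProjImage_of_tightSet (by norm_num) ℍ[ℝ] A ι hm hc hn hS
    (fun p hp hg => near_of_good hloc A hA hS hp hg)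

/-- the theorem for tight sets, octonions -/
theorem tightSet_octonion (hloc : LocalThm 8) {S : Set E} (hS : TightSet 8 S) :
    IsProjImage Oct S := by
  obtain ⟨A, ι, hm, hc, hn, hA⟩ := exists_CA_octonion
  exact isProjImage_of_tightSet (by norm_num) Oct A ι hm hc hn hS
    (fun p hp hg => near_of_good hloc A hA hS hp hg)

end

end Pool.Agent.TP
end
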